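import Pool.Agent.Helper45_IntervalDim.Defs

/-!
# Rank-preserving interval realizers of finite ordered sets

The two key lemmas: the obstruction (`lt_of_rankPreserving`) and the
construction (`levelOrder`) of rank-preserving interval orders from arbitrary ones.
-/

namespace Pool.Agent.Helper45_IntervalDim

variable {P : Type*}

lemma rank_lt_top [Finite P] (s : PartialOrder P) (p : P) : rank s p < ⊤ := by
  classical
  let := s
  unfold rank
  by_contra h
  rw [not_lt, top_le_iff] at h
  have := Fintype.ofFinite P
  rw [Order.height_eq_top_iff] at h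
  obtain ⟨l, -, hl⟩ := h (Fintype.card P)
  have h1 : Function.Injective l.toFun := l.strictMono.injective
  have h2 := Fintype.card_le_of_injective _ h1
  simp [hl] at h2

lemma rank_lt_rank [Finite P] (s : PartialOrder P) {p q : P} (h : s.lt p q) :
    rank s p < rank s q := by
  let := s
  exact Order.height_strictMono h (rank_lt_top s p)

/-- Below a point of rank `> n` there is a point of rank `≥ n`. -/
lemma exists_lt_rank [Finite P] (s : PartialOrder P) {p q : P} (h : rank s p < rank s q) :
    ∃ e, s.lt e q ∧ rank s p ≤ rank s e := by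
  let := s
  by_contra hcon
  push Not at hcon
  obtain ⟨n, hn⟩ := ENat.ne_top_iff_exists.mp (rank_lt_top s p).ne
  have : rank s q ≤ n := by
    unfold rank
    rw [Order.height_le_coe_iff]
    intro y hy
    have := hcon y hy
    rw [← hn] at this
    exact this
  rw [← hn] at h
  exact absurd h (not_lt.mpr this)

/-- If `r` extends `s`, and `r` never puts `p` below `q` unless `rank s p < rank s q`, then `r`
preserves the rank. -/
lemma rank_eq_of [Finite P] (s r : PartialOrder P) (h1 : ∀ p q, s.le p q → r.le p q)
    (h2 : ∀ p q, r.lt p q → rank s p < rank s q) (p : P) : rank r p = rank s p := by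
  have hlt : ∀ p q, s.lt p q → r.lt p q := by
    intro p q h
    rw [@lt_iff_le_and_ne P s] at h
    rw [@lt_iff_le_and_ne P r]
    exact ⟨h1 _ _ h.1, h.2⟩
  apply le_antisymm
  · -- induction on the rank in `s`
    have key : ∀ n : ℕ, ∀ p, rank s p = n → rank r p ≤ n := by
      intro n
      induction n using Nat.strong_induction_on with
      | _ n ih =>
        intro p hp
        unfold rank
        rw [@Order.height_le_coe_iff P r.toPreorder]
        intro y hy
        have h3 := h2 y p hy
        obtain ⟨m, hm⟩ := ENat.ne_top_iff_exists.mp (rank_lt_top s y).ne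
        rw [← hm, hp] at h3
        have h4 : m < n := by exact_mod_cast h3
        have h5 := ih m h4 y hm.symm
        calc @Order.height P r.toPreorder y ≤ (m : ℕ∞) := h5
          _ < (n : ℕ∞) := by exact_mod_cast h4
    obtain ⟨n, hn⟩ := ENat.ne_top_iff_exists.mp (rank_lt_top s p).ne
    rw [← hn]
    exact key n p hn.symm
  · exact @Order.height_le_height_apply_of_strictMono P P s.toPreorder r.toPreorder id
      (fun a b hab => hlt a b hab) p

/-- The obstruction: in every rank-preserving interval order extending `s`, a point `a` that is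
below some point `f` of rank smaller than that of `b` is itself below `b`. -/
lemma lt_of_rankPreserving [Finite P] {s r : PartialOrder P}
    (hext : ∀ p q, s.le p q → r.le p q) (hint : IsIntervalOrder r)
    (hrank : ∀ p, rank r p = rank s p) {a f b : P} (haf : s.lt a f)
    (hfb : rank s f < rank s b) : r.lt a b := by
  have hlt : ∀ p q, s.lt p q → r.lt p q := by
    intro p q h
    rw [@lt_iff_le_and_ne P s] at h
    rw [@lt_iff_le_and_ne P r]
    exact ⟨hext _ _ h.1, h.2⟩
  obtain ⟨e, heb, hfe⟩ := exists_lt_rank s hfb
  by_contra hcon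
  have hab : a ≠ b := by
    rintro rfl
    exact absurd (rank_lt_rank s haf) (not_lt.mpr hfb.le)
  apply hint
  refine ⟨a, e, f, b, hlt _ _ haf, hlt _ _ heb, ?_, ?_⟩
  · intro hef
    by_cases h : e = f
    · subst h
      exact hcon (hlt _ _ (@lt_trans P s.toPreorder _ _ _ haf heb))
    · have h1 : r.lt e f := by
        rw [@lt_iff_le_and_ne P r]
        exact ⟨hef, h⟩
      have h2 := rank_lt_rank r h1
      rw [hrank, hrank] at h2
      exact absurd h2 (not_lt.mpr hfe)
  · intro h
    apply hcon
    rw [@lt_iff_le_and_ne P r]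
    exact ⟨h, hab⟩

/-- The strict part of the rank-preserving modification of an order `r`: `a` is below `b` if some
`f > a` (in `s`) has rank at most that of `b`, and strictly smaller rank unless `a` is below `b`
in `r`. -/
def LevelLT (s r : PartialOrder P) (a b : P) : Prop :=
  ∃ f, s.lt a f ∧ (rank s f < rank s b ∨ (rank s f = rank s b ∧ r.lt a b))

lemma LevelLT.rank_lt [Finite P] {s r : PartialOrder P} {a b : P} (h : LevelLT s r a b) :
    rank s a < rank s b := by
  obtain ⟨f, haf, h | ⟨h, -⟩⟩ := h
  · exact (rank_lt_rank s haf).trans h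
  · exact h ▸ rank_lt_rank s haf

lemma LevelLT.trans [Finite P] {s r : PartialOrder P} {a b c : P} (h : LevelLT s r a b)
    (h' : LevelLT s r b c) : LevelLT s r a c := by
  have h2 := h'.rank_lt
  obtain ⟨f, haf, h | ⟨h, -⟩⟩ := h
  · exact ⟨f, haf, Or.inl (h.trans h2)⟩
  · exact ⟨f, haf, Or.inl (h ▸ h2)⟩

/-- The rank-preserving modification of an order `r`. -/
@[reducible] def levelOrder [Finite P] (s r : PartialOrder P) : PartialOrder P where
  le a b := a = b ∨ LevelLT s r a b
  lt a b := LevelLT s r a b
  le_refl a := Or.inl rfl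
  le_trans a b c := by
    rintro (rfl | h) (rfl | h')
    · exact Or.inl rfl
    · exact Or.inr h'
    · exact Or.inr h
    · exact Or.inr (h.trans h')
  le_antisymm a b := by
    rintro (rfl | h) (h' | h')
    · rfl
    · rfl
    · exact h'.symm
    · exact absurd (h.rank_lt.trans h'.rank_lt) (lt_irrefl _)
  lt_iff_le_not_ge a b := by
    constructor
    · intro h
      refine ⟨Or.inr h, ?_⟩
      rintro (rfl | h')
      · exact absurd h.rank_lt (lt_irrefl _)
      · exact absurd (h.rank_lt.trans h'.rank_lt) (lt_irrefl _)
    · rintro ⟨rfl | h, h'⟩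
      · exact absurd (Or.inl rfl) h'
      · exact h

lemma levelOrder_le [Finite P] (s r : PartialOrder P) (a b : P) :
    (levelOrder s r).le a b ↔ a = b ∨ LevelLT s r a b := Iff.rfl

lemma levelOrder_lt [Finite P] (s r : PartialOrder P) (a b : P) :
    (levelOrder s r).lt a b ↔ LevelLT s r a b := Iff.rfl

lemma levelOrder_interval [Finite P] {s r : PartialOrder P} (hr : IsIntervalOrder r) :
    IsIntervalOrder (levelOrder s r) := by
  rintro ⟨a, b, c, d, hac, hbd, hbc, had⟩
  rw [levelOrder_lt] at hac hbd
  rw [levelOrder_le, not_or] at hbc had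
  obtain ⟨f, haf, hf⟩ := hac
  obtain ⟨g, hbg, hg⟩ := hbd
  have hfd : rank s d ≤ rank s f := by
    by_contra h
    exact had.2 ⟨f, haf, Or.inl (not_le.mp h)⟩
  have hgc : rank s c ≤ rank s g := by
    by_contra h
    exact hbc.2 ⟨g, hbg, Or.inl (not_le.mp h)⟩
  have hfc : rank s f ≤ rank s c := by
    rcases hf with h | h
    · exact h.le
    · exact h.1.le
  have hgd : rank s g ≤ rank s d := by
    rcases hg with h | h
    · exact h.le
    · exact h.1.le
  have e1 : rank s f = rank s c := le_antisymm hfc (hgc.trans (hgd.trans hfd))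
  have e2 : rank s g = rank s d := le_antisymm hgd (hfd.trans (hfc.trans hgc))
  have e3 : rank s f = rank s d := le_antisymm (hfc.trans (hgc.trans hgd)) hfd
  have hac' : r.lt a c := by
    rcases hf with h | h
    · exact absurd h (by rw [e1]; exact lt_irrefl _)
    · exact h.2
  have hbd' : r.lt b d := by
    rcases hg with h | h
    · exact absurd h (by rw [e2]; exact lt_irrefl _)
    · exact h.2
  apply hr
  refine ⟨a, b, c, d, hac', hbd', ?_, ?_⟩
  · intro h
    apply hbc.2
    refine ⟨g, hbg, Or.inr ⟨?_, ?_⟩⟩
    · rw [e2, ← e3, e1]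
    · rw [@lt_iff_le_and_ne P r]
      exact ⟨h, hbc.1⟩
  · intro h
    apply had.2
    refine ⟨f, haf, Or.inr ⟨e3, ?_⟩⟩
    rw [@lt_iff_le_and_ne P r]
    exact ⟨h, had.1⟩

/-- The condition characterising the ordered sets that have rank-preserving realizers: a point
below some point of rank `i` is below all points of rank greater than `i`. -/
def LevelCondition (s : PartialOrder P) : Prop :=
  ∀ a f b, s.lt a f → rank s f < rank s b → s.lt a b

/-- Under the level condition every interval realizer can be made rank-preserving without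
changing the number of interval orders. -/
lemma LevelCondition.hasRankPreservingRealizer [Finite P] {s : PartialOrder P}
    (hs : LevelCondition s) {k : ℕ} (h : HasIntervalRealizer s k) :
    HasRankPreservingRealizer s k := by
  obtain ⟨r, hint, hr⟩ := h
  have hext : ∀ j p q, s.le p q → (r j).le p q := fun j p q h => (hr p q).mp h j
  have hlt : ∀ j p q, s.lt p q → (r j).lt p q := by
    intro j p q h
    rw [@lt_iff_le_and_ne P s] at h
    rw [@lt_iff_le_and_ne P (r j)]
    exact ⟨hext j _ _ h.1, h.2⟩
  have hle : ∀ j p q, s.le p q → (levelOrder s (r j)).le p q := by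
    intro j p q h
    rw [levelOrder_le]
    by_cases hpq : p = q
    · exact Or.inl hpq
    · have h1 : s.lt p q := by
        rw [@lt_iff_le_and_ne P s]
        exact ⟨h, hpq⟩
      exact Or.inr ⟨q, h1, Or.inr ⟨rfl, hlt j _ _ h1⟩⟩
  refine ⟨fun j => levelOrder s (r j), ⟨fun j => levelOrder_interval (hint j), ?_⟩, ?_⟩
  · intro p q
    refine ⟨fun h j => hle j p q h, ?_⟩
    intro h
    by_cases hpq : p = q
    · subst hpq
      exact s.le_refl p
    by_cases hex : ∃ f, s.lt p f ∧ rank s f < rank s q
    · obtain ⟨f, hf1, hf2⟩ := hex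
      exact @le_of_lt P s.toPreorder _ _ (hs p f q hf1 hf2)
    · rw [hr p q]
      intro j
      have h1 := h j
      rw [levelOrder_le] at h1
      rcases h1 with h1 | ⟨f, hf1, hf2 | hf2⟩
      · exact absurd h1 hpq
      · exact absurd ⟨f, hf1, hf2⟩ hex
      · exact @le_of_lt P (r j).toPreorder _ _ hf2.2
  · intro j p
    exact rank_eq_of s (levelOrder s (r j)) (hle j) (fun p q h => LevelLT.rank_lt h) p

/-- The level condition is necessary for having any rank-preserving interval realizer. -/
lemma levelCondition_of_hasRankPreservingRealizer [Finite P] {s : PartialOrder P} {k : ℕ}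
    (h : HasRankPreservingRealizer s k) : LevelCondition s := by
  obtain ⟨r, ⟨hint, hr⟩, hrank⟩ := h
  intro a f b haf hfb
  have hab : a ≠ b := by
    rintro rfl
    exact absurd (rank_lt_rank s haf) (not_lt.mpr hfb.le)
  rw [@lt_iff_le_and_ne P s]
  refine ⟨?_, hab⟩
  rw [hr]
  intro j
  exact @le_of_lt P (r j).toPreorder _ _
    (lt_of_rankPreserving (fun p q h => (hr p q).mp h j) (hint j) (hrank j) haf hfb)

end Pool.Agent.Helper45_IntervalDim
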