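import Mathlib

/-!
# Rank-preserving interval realizers of finite ordered sets: definitions
-/

namespace Pool.Agent.Helper45_IntervalDim

variable {P : Type*}

/-- The order `r` on `P` is an interval order: there are no four points `a, b, c, d` with
`a ⊏ c`, `b ⊏ d`, `b ⋢ c` and `a ⋢ d`. -/
def IsIntervalOrder (r : PartialOrder P) : Prop :=
  ¬ ∃ a b c d : P, r.lt a c ∧ r.lt b d ∧ ¬ r.le b c ∧ ¬ r.le a d

/-- `rank s p` is the length (number of elements minus one) of a longest chain of `(P, s)` whose
largest element is `p` (it is Mathlib's `Order.height`, taken with respect to the order `s`). -/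
noncomputable def rank (s : PartialOrder P) (p : P) : ℕ∞ :=
  @Order.height P s.toPreorder p

/-- `r 0, …, r (k-1)` are `k` interval orders on `P` whose intersection, as sets of ordered
pairs, is the order `s`. -/
def IsIntervalRealizer (s : PartialOrder P) {k : ℕ} (r : Fin k → PartialOrder P) : Prop :=
  (∀ j, IsIntervalOrder (r j)) ∧ ∀ p q : P, s.le p q ↔ ∀ j, (r j).le p q

/-- A rank-preserving interval realizer of `(P, s)`: an interval realizer each of whose interval
orders gives every point the same rank as `s` does. -/
def IsRankPreservingRealizer (s : PartialOrder P) {k : ℕ} (r : Fin k → PartialOrder P) : Prop :=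
  IsIntervalRealizer s r ∧ ∀ j p, rank (r j) p = rank s p

/-- `(P, s)` is the intersection of `k` interval orders on `P`. The interval dimension of
`(P, s)` is the least such `k`. -/
def HasIntervalRealizer (s : PartialOrder P) (k : ℕ) : Prop :=
  ∃ r : Fin k → PartialOrder P, IsIntervalRealizer s r

/-- `(P, s)` has a rank-preserving interval realizer consisting of `k` interval orders. -/
def HasRankPreservingRealizer (s : PartialOrder P) (k : ℕ) : Prop :=
  ∃ r : Fin k → PartialOrder P, IsRankPreservingRealizer s r

end Pool.Agent.Helper45_IntervalDim
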