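import Pool.Agent.Helper45_IntervalDim.Basic

/-!
# A family of ordered sets without rank-preserving interval realizers

`extStd k` is the standard example `S_k` (points `a i`, `b i`, with `a i < b j` iff `i ≠ j`)
with one further point `t` put above `b 0`. For `k = 2` it is the disjoint union of a chain with
two elements and a chain with three elements.
-/

namespace Pool.Agent.Helper45_IntervalDim

/-- The order of closed intervals `[x p, y p]`: `p` is below `q` iff `y p < x q`. -/
@[reducible] def intervalRep {P : Type*} (x y : P → ℕ) (h : ∀ p, x p ≤ y p) : PartialOrder P where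
  le p q := p = q ∨ y p < x q
  lt p q := y p < x q
  le_refl p := Or.inl rfl
  le_trans p q s := by
    have := h q
    rintro (rfl | h1) (rfl | h2)
    · exact Or.inl rfl
    · exact Or.inr h2
    · exact Or.inr h1
    · right; omega
  le_antisymm p q := by
    have := h q
    have := h p
    rintro (rfl | h1) (h2 | h2)
    · rfl
    · rfl
    · exact h2.symm
    · omega
  lt_iff_le_not_ge p q := by
    have := h q
    have := h p
    constructor
    · intro h1
      refine ⟨Or.inr h1, ?_⟩
      rintro (rfl | h2)
      · omega
      · omega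
    · rintro ⟨rfl | h1, h2⟩
      · exact absurd (Or.inl rfl) h2
      · exact h1

lemma intervalRep_interval {P : Type*} (x y : P → ℕ) (h : ∀ p, x p ≤ y p) :
    IsIntervalOrder (intervalRep x y h) := by
  rintro ⟨a, b, c, d, hac, hbd, hbc, had⟩
  change y a < x c at hac
  change y b < x d at hbd
  have h1 : ¬ y b < x c := fun h => hbc (Or.inr h)
  have h2 : ¬ y a < x d := fun h => had (Or.inr h)
  omega

/-- The underlying set: `some (inl i)` is `a i`, `some (inr i)` is `b i`, `none` is `t`. -/
abbrev ExtStd (k : ℕ) : Type := Option (Fin k ⊕ Fin k)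

/-- The strict order of `extStd k`. -/
def extLT {k : ℕ} : ExtStd k → ExtStd k → Prop
  | some (Sum.inl i), some (Sum.inr j) => i ≠ j
  | some (Sum.inl i), none => i.val ≠ 0
  | some (Sum.inr j), none => j.val = 0
  | _, _ => False

/-- The standard example with a further point above `b 0`. -/
@[reducible] def extStd (k : ℕ) : PartialOrder (ExtStd k) where
  le p q := p = q ∨ extLT p q
  lt p q := extLT p q
  le_refl p := Or.inl rfl
  le_trans p q s := by
    rintro (rfl | h1) (rfl | h2)
    · exact Or.inl rfl
    · exact Or.inr h2
    · exact Or.inr h1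
    · rcases p with _ | i | i <;> rcases q with _ | j | j <;> rcases s with _ | l | l <;>
        simp_all [extLT, Fin.ext_iff]
  le_antisymm p q := by
    rintro (rfl | h1) (h2 | h2)
    · rfl
    · rfl
    · exact h2.symm
    · rcases p with _ | i | i <;> rcases q with _ | j | j <;> simp_all [extLT]
  lt_iff_le_not_ge p q := by
    constructor
    · intro h1
      refine ⟨Or.inr h1, ?_⟩
      rintro (rfl | h2)
      · rcases q with _ | j | j <;> simp_all [extLT]
      · rcases p with _ | i | i <;> rcases q with _ | j | j <;> simp_all [extLT]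
    · rintro ⟨rfl | h1, h2⟩
      · exact absurd (Or.inl rfl) h2
      · exact h1

lemma extStd_lt {k : ℕ} (p q : ExtStd k) : (extStd k).lt p q ↔ extLT p q := Iff.rfl
lemma extStd_le {k : ℕ} (p q : ExtStd k) : (extStd k).le p q ↔ p = q ∨ extLT p q := Iff.rfl

/-- left endpoints -/
def xrep {k : ℕ} (m : Fin k) : ExtStd k → ℕ
  | none => if m.val = 0 then 2 else 4
  | some (Sum.inl _) => 0
  | some (Sum.inr j) => if m.val = 0 then (if j.val = 0 then 1 else 4)
      else (if j = m then 1 else 3)

/-- right endpoints -/
def yrep {k : ℕ} (m : Fin k) : ExtStd k → ℕ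
  | none => 4
  | some (Sum.inl i) => if m.val = 0 then (if i.val = 0 then 3 else 0)
      else (if i = m then 2 else 0)
  | some (Sum.inr j) => if m.val = 0 then (if j.val = 0 then 1 else 4) else 3

lemma xrep_le_yrep {k : ℕ} (m : Fin k) (p : ExtStd k) : xrep m p ≤ yrep m p := by
  rcases p with _ | i | i <;> simp only [xrep, yrep] <;> split_ifs <;> omega

lemma extStd_hasIntervalRealizer {k : ℕ} (hk : 2 ≤ k) : HasIntervalRealizer (extStd k) k := by
  refine ⟨fun m => intervalRep (xrep m) (yrep m) (xrep_le_yrep m),
    fun m => intervalRep_interval _ _ _, ?_⟩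
  intro p q
  rw [extStd_le]
  constructor
  · rintro (rfl | h) m
    · exact Or.inl rfl
    · right
      rcases p with _ | i | i <;> rcases q with _ | j | j <;> simp only [extLT] at h
      · simp only [xrep, yrep]; split_ifs <;> omega
      · simp only [xrep, yrep]; split_ifs <;> simp_all; omega
      · simp only [xrep, yrep]; split_ifs <;> simp_all
  · intro h
    by_cases hpq : p = q
    · exact Or.inl hpq
    right
    have h' : ∀ m : Fin k, yrep m p < xrep m q := fun m => (h m).resolve_left hpq
    clear h
    have h0 := h' ⟨0, by omega⟩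
    have h1 := h' ⟨1, by omega⟩
    rcases p with _ | i | i <;> rcases q with _ | j | j
    · exact absurd rfl hpq
    · simp [xrep, yrep] at h0
    · simp only [xrep, yrep] at h0
      split_ifs at h0 <;> omega
    · simp only [xrep, yrep] at h0
      simp only [extLT]
      split_ifs at h0 <;> simp_all
    · simp [xrep, yrep] at h0
    · simp only [extLT]
      rintro rfl
      have h2 := h' i
      simp only [xrep, yrep] at h2
      split_ifs at h2 <;> omega
    · simp only [xrep, yrep] at h0
      simp only [extLT]
      split_ifs at h0 <;> simp_all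
    · simp [xrep, yrep] at h0
    · simp only [xrep, yrep] at h1
      split_ifs at h1 <;> simp_all

lemma extStd_le_of_hasIntervalRealizer {k m : ℕ} (h : HasIntervalRealizer (extStd k) m) :
    k ≤ m := by
  obtain ⟨r, hint, hr⟩ := h
  have hex : ∀ i : Fin k, ∃ j : Fin m, ¬ (r j).le (some (Sum.inl i)) (some (Sum.inr i)) := by
    intro i
    have h1 : ¬ (extStd k).le (some (Sum.inl i)) (some (Sum.inr i)) := by
      rw [extStd_le]
      simp [extLT]
    rw [hr] at h1
    push Not at h1
    exact h1
  choose f hf using hex
  have hinj : Function.Injective f := by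
    intro i i' hii
    by_contra hne
    have hlt : ∀ u v : Fin k, u ≠ v →
        (r (f i)).lt (some (Sum.inl u)) (some (Sum.inr v)) := by
      intro u v huv
      rw [@lt_iff_le_and_ne _ (r (f i))]
      refine ⟨(hr _ _).mp ?_ _, by simp⟩
      exact Or.inr huv
    apply hint (f i)
    refine ⟨some (Sum.inl i), some (Sum.inl i'), some (Sum.inr i'), some (Sum.inr i),
      hlt _ _ hne, hlt _ _ (Ne.symm hne), ?_, hf i⟩
    rw [hii]
    exact hf i'
  have := Fintype.card_le_of_injective f hinj
  simpa using this

lemma extStd_not_levelCondition {k : ℕ} (hk : 2 ≤ k) : ¬ LevelCondition (extStd k) := by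
  intro h
  have h0 : (extStd k).lt (some (Sum.inl ⟨1, by omega⟩)) (some (Sum.inr ⟨0, by omega⟩)) := by
    rw [extStd_lt]
    simp [extLT]
  have h1 : (extStd k).lt (some (Sum.inl ⟨0, by omega⟩)) (some (Sum.inr ⟨1, by omega⟩)) := by
    rw [extStd_lt]
    simp [extLT]
  have h2 : (extStd k).lt (some (Sum.inr ⟨0, by omega⟩)) none := by
    rw [extStd_lt]
    simp [extLT]
  have h3 : rank (extStd k) (some (Sum.inr ⟨1, by omega⟩)) ≤ 1 := by
    unfold rank
    have : ((1 : ℕ) : ℕ∞) = 1 := rfl
    rw [← this, @Order.height_le_coe_iff _ (extStd k).toPreorder]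
    intro y hy
    rcases y with _ | i | i
    · exact absurd hy (by change ¬ extLT _ _; simp [extLT])
    · have : @IsMin _ (extStd k).toLE (some (Sum.inl i)) := by
        intro z hz
        rcases hz with rfl | hz
        · exact Or.inl rfl
        · rcases z with _ | j | j <;> simp [extLT] at hz
      rw [(@Order.height_eq_zero _ (extStd k).toPreorder _).mpr this]
      exact one_pos
    · exact absurd hy (by change ¬ extLT _ _; simp [extLT])
  have h4 := rank_lt_rank _ h0
  have h5 := rank_lt_rank _ h2
  have h6 : (1 : ℕ∞) ≤ rank (extStd k) (some (Sum.inr ⟨0, by omega⟩)) :=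
    Order.one_le_iff_pos.mpr (lt_of_le_of_lt bot_le h4)
  have h7 := h _ _ none h1 (lt_of_le_of_lt (h3.trans h6) h5)
  rw [extStd_lt] at h7
  simp [extLT] at h7

end Pool.Agent.Helper45_IntervalDim
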