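import Pool.Agent.Helper45_IntervalDim.Example

/-!
# Every finite ordered set has an interval realizer
-/

namespace Pool.Agent.Helper45_IntervalDim

lemma exists_hasIntervalRealizer {P : Type*} [Finite P] (s : PartialOrder P) :
    ∃ m, HasIntervalRealizer s m := by
  classical
  have hfin : Fintype P := Fintype.ofFinite P
  -- a strictly monotone map to `ℕ`
  obtain ⟨g, hg⟩ : ∃ g : P → ℕ, ∀ p q, s.lt p q → g p < g q := by
    refine ⟨fun p => (rank s p).toNat, fun p q h => ?_⟩
    have h1 := rank_lt_rank s h
    have h2 := ENat.natCast_toNat (rank_lt_top s p).ne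
    have h3 := ENat.natCast_toNat (rank_lt_top s q).ne
    rw [← h2, ← h3] at h1
    exact_mod_cast h1
  obtain ⟨N, hN⟩ : ∃ N : ℕ, ∀ p, g p < N := by
    refine ⟨(∑ p, g p) + 1, fun p => ?_⟩
    exact Nat.lt_succ_of_le (Finset.single_le_sum (fun _ _ => Nat.zero_le _) (Finset.mem_univ p))
  let f : P → P → ℕ := fun q a => if s.le a q then g a else N + g a
  refine ⟨Fintype.card P, fun j => intervalRep (f ((Fintype.equivFin P).symm j))
    (f ((Fintype.equivFin P).symm j)) (fun _ => le_rfl), fun j => intervalRep_interval _ _ _, ?_⟩
  intro p q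
  constructor
  · intro h j
    by_cases hpq : p = q
    · exact Or.inl hpq
    right
    have hlt : s.lt p q := by
      rw [@lt_iff_le_and_ne P s]
      exact ⟨h, hpq⟩
    have h1 := hg p q hlt
    have h2 := hN p
    simp only [f]
    split_ifs with h3 h4 h4
    · exact h1
    · omega
    · exact absurd (s.le_trans _ _ _ h h4) h3
    · omega
  · intro h
    by_contra hcon
    have h1 := h (Fintype.equivFin P q)
    rcases h1 with h1 | h1
    · subst h1
      exact hcon (s.le_refl _)
    · simp only [f, Equiv.symm_apply_apply] at h1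
      rw [if_neg hcon, if_pos (s.le_refl q)] at h1
      have := hN q
      omega

end Pool.Agent.Helper45_IntervalDim
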